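import Pool.Agent.P.MP_029dcd_co.F.G.Der

/-! Layer G: galaxies are projectively algebraic. -/

set_option autoImplicit false

namespace ECub.G

open CubicStab MeasureTheory Filter Topology Finset
open scoped ENNReal

theorem tp_shift (S : Sys) (ω : S.Ω) (w : Z2) : (S.Γ (S.T w ω)).tp 0 = (S.Γ ω).tp w := by
  rw [(S.shift ω w).tp, add_zero]

theorem tx_shift (S : Sys) (ω : S.Ω) (w : Z2) (i : Fin 3) :
    S.tx (S.T w ω) i = (S.T w ω, (S.Γ ω).tl w i) := by
  rw [Sys.tx, (S.shift ω w).tl, add_zero]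

theorem sl_shift (S : Sys) (ω : S.Ω) (w : Z2) (j : ℕ) :
    S.sl (S.T w ω, j) = (S.Γ ω).t (w, j) := by
  show (S.Γ (S.T w ω)).t (0, j) = _
  rw [(S.shift ω w).t, add_zero]

theorem fam_shift (S : Sys) (ω : S.Ω) (w : Z2) (j : ℕ) :
    (S.Γ (S.T w ω)).fam (0, j) = (S.Γ ω).fam (w, j) := by
  rw [(S.shift ω w).fam, add_zero]

theorem valid_shift (S : Sys) (ω : S.Ω) (w : Z2) (j : ℕ) :
    (S.Γ (S.T w ω)).valid (0, j) ↔ (S.Γ ω).valid (w, j) := by
  show j < (S.Γ (S.T w ω)).g 0 ↔ j < (S.Γ ω).g w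
  rw [(S.shift ω w).g, add_zero]

theorem sl_tx (S : Sys) (ω : S.Ω) (w : Z2) (i : Fin 3) :
    S.sl (S.tx (S.T w ω) i) = (S.Γ ω).t ((S.Γ ω).tlab w i) := by
  rw [tx_shift, sl_shift]; rfl

theorem ae_shift (D : Dyn) (p : D.Ω → Prop) (hp : ∀ᵐ ω ∂D.μ, p ω) :
    ∀ᵐ ω ∂D.μ, ∀ w, p (D.T w ω) :=
  ae_all_iff.2 fun w => (D.mp w).quasiMeasurePreserving.ae hp

theorem xiRel_der {n : ℕ} (D : Derivation ℚ ℝ ℝ) (x : Fin 3 → E n) (s : Fin 3 → ℝ) (x0 y0 : ℝ)
    (hlin : ∀ k, ∑ i, co (fun i => x i 1) i * x i k = 0)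
    (hon : ∀ i, y0 = x i 1 * x0 + s i) :
    XiRel x x0 fun i => dv D (x i, s i) := by
  constructor
  · intro k
    have h1 := hlin k
    have h2 := congrArg D h1
    simp only [Fin.sum_univ_three, co, Matrix.cons_val_zero, Matrix.cons_val_one,
      Matrix.cons_val_two, Matrix.head_cons, Matrix.tail_cons, map_add, map_sub, map_zero,
      Derivation.leibniz, smul_eq_mul, dv] at h1 h2 ⊢
    linear_combination (x 0 1 - x 1 1) * h2 - (D (x 0 1) - D (x 1 1)) * h1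
  · have h0 := congrArg D (hon 0)
    have h1 := congrArg D (hon 1)
    have h2 := congrArg D (hon 2)
    simp only [Fin.sum_univ_three, co, Matrix.cons_val_zero, Matrix.cons_val_one,
      Matrix.cons_val_two, Matrix.head_cons, Matrix.tail_cons, map_add,
      Derivation.leibniz, smul_eq_mul, dv] at h0 h1 h2 ⊢
    linear_combination -(x 1 1 - x 2 1) * h0 - (x 2 1 - x 0 1) * h1 - (x 0 1 - x 1 1) * h2

theorem sys_projAlg (S : Sys) {A : Set (S.Ω × ℕ)} {n : ℕ}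
    {ν : S.Ω × ℕ → E n} (hν : S.Marks A ν) (h : S.Rigid A ν) : S.ProjAlg A ν := by
  have hlin := ae_shift S.toDyn _ (ae_all_iff.2 hν.lin)
  filter_upwards [h, hlin, hν.line] with ω hω hl hline
  intro J hJ
  refine projAlg J (S.fv ν ω) fun D => ?_
  refine hω (fun l => dv D (S.fv ν ω l)) ?_ ?_ ?_ J hJ
  · intro l l' h1 h2 h3
    simp only [Sys.fv, hline l l' h1 h2 h3, (S.ax ω).same_s l l' h1 h2 h3]
  · intro l
    simp only [dv, Sys.fv, Sys.ev, hν.one, Derivation.map_one_eq_zero]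
  · intro w hw
    have htp : (S.Γ ω).tp w = true := by rw [← tp_shift]; exact hw.1
    have ht : ∀ i, S.ev ν ω ((S.Γ ω).tlab w i) 1 = (S.Γ ω).t ((S.Γ ω).tlab w i) := by
      intro i
      have hv : (S.Γ ω).valid (w, (S.Γ ω).tl w i) := ((S.ax ω).tp_can w htp i).1
      exact (hν.slope (S.T w ω, (S.Γ ω).tl w i) ((valid_shift S ω w _).2 hv)).trans
        (sl_shift S ω w _)
    refine xiRel_der D (fun i => S.ev ν ω ((S.Γ ω).tlab w i))
      (fun i => (S.Γ ω).s ((S.Γ ω).tlab w i)) _ ((S.Γ ω).v w).2 (fun k => ?_) (fun i => ?_)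
    · have h1 := hl w k hw
      simp only [sl_tx] at h1
      simp only [ht]
      simp only [tx_shift] at h1
      exact h1
    · rw [ht]; exact (S.ax ω).tp_on w htp i

end ECub.G
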