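import Pool.Agent.P.MP_029dcd_co.F.LayE

/-! Layer G: derivations of the reals and projectively algebraic families. -/

set_option autoImplicit false

namespace ECub.G

open CubicStab MeasureTheory Filter Topology Finset
open scoped ENNReal

/-- a derivation extends along a formally étale extension -/
theorem der_ext (R S T : Type) [CommRing R] [CommRing S] [CommRing T] [Algebra R S] [Algebra R T]
    [Algebra S T] [IsScalarTower R S T] [Algebra.FormallyEtale S T] (D0 : Derivation R S T) :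
    ∃ D : Derivation R T T, ∀ s, D (algebraMap S T s) = D0 s := by
  have hb := KaehlerDifferential.isBaseChange_of_formallyEtale R S T
  let g : Ω[S⁄R] →ₗ[S] T := D0.liftKaehlerDifferential
  refine ⟨(hb.lift g).compDer (KaehlerDifferential.D R T), fun s => ?_⟩
  have h1 : KaehlerDifferential.D R T (algebraMap S T s) =
      KaehlerDifferential.map R R S T (KaehlerDifferential.D R S s) :=
    (KaehlerDifferential.map_D R R S T s).symm
  show hb.lift g (KaehlerDifferential.D R T (algebraMap S T s)) = D0 s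
  rw [h1, hb.lift_eq]
  exact D0.liftKaehlerDifferential_comp_D s

theorem exists_der (α : ℝ) (hα : ¬ IsAlgebraic ℚ α) :
    ∃ D : Derivation ℚ ℝ ℝ, D α ≠ 0 := by
  classical
  have h1 : AlgebraicIndepOn ℚ id ({α} : Set ℝ) := by
    have : Transcendental ℚ α := hα
    exact (algebraicIndependent_singleton_iff (R := ℚ)
      (x := fun y : ({α} : Set ℝ) => id (y : ℝ)) ⟨α, rfl⟩).2 this
  obtain ⟨B, hB, hx⟩ := exists_isTranscendenceBasis_superset h1
  let R0 := MvPolynomial B ℚ
  let : Algebra R0 ℝ := (MvPolynomial.aeval (R := ℚ) ((↑) : B → ℝ)).toRingHom.toAlgebra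
  have hmap : ∀ p : R0, algebraMap R0 ℝ p = MvPolynomial.aeval (R := ℚ) ((↑) : B → ℝ) p :=
    fun _ => rfl
  have : IsScalarTower ℚ R0 ℝ := IsScalarTower.of_algebraMap_eq fun q => by
    rw [hmap, AlgHom.commutes]
  have : FaithfulSMul R0 ℝ := (faithfulSMul_iff_algebraMap_injective R0 ℝ).2 hx.1
  have halg : Algebra.IsAlgebraic R0 ℝ := by
    have := hx.isAlgebraic
    refine Algebra.IsAlgebraic.of_ringHom_of_comp_eq (hx.1.aevalEquiv.toRingEquiv) (RingHom.id ℝ)
      hx.1.aevalEquiv.surjective Function.injective_id ?_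
    refine RingHom.ext fun p => ?_
    exact hx.1.algebraMap_aevalEquiv p
  let : Algebra (FractionRing R0) ℝ := FractionRing.liftAlgebra R0 ℝ
  have : IsScalarTower R0 (FractionRing R0) ℝ := FractionRing.isScalarTower_liftAlgebra R0 ℝ
  have : Algebra.IsAlgebraic (FractionRing R0) ℝ :=
    Algebra.IsAlgebraic.extendScalars (R := R0) (IsFractionRing.injective R0 (FractionRing R0))
  have : CharZero (FractionRing R0) :=
    charZero_of_injective_algebraMap (IsFractionRing.injective R0 (FractionRing R0))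
  have : Algebra.FormallyEtale (FractionRing R0) ℝ := Algebra.FormallyEtale.of_isSeparable _ _
  have : Algebra.FormallyEtale R0 (FractionRing R0) :=
    Algebra.FormallyEtale.of_isLocalization (nonZeroDivisors R0)
  have : Algebra.FormallyEtale R0 ℝ := Algebra.FormallyEtale.comp R0 (FractionRing R0) ℝ
  obtain ⟨D, hD⟩ := der_ext ℚ R0 ℝ (MvPolynomial.mkDerivation ℚ (fun _ : B => (1 : ℝ)))
  refine ⟨D, ?_⟩
  have h2 := hD (MvPolynomial.X ⟨α, hB rfl⟩)
  rw [hmap, MvPolynomial.aeval_X, MvPolynomial.mkDerivation_X] at h2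
  rw [h2]; exact one_ne_zero

/-- rescaling of a family of numbers whose logarithmic derivatives are differences of
potentials -/
theorem rescale {V : Type} (μ : Derivation ℚ ℝ ℝ → V → ℝ) :
    ∃ y : V → ℝ, (∀ v, y v ≠ 0) ∧ ∀ (u v : V) (x : ℝ), (∀ D : Derivation ℚ ℝ ℝ,
      D x = (μ D v - μ D u) * x) → IsAlgebraic ℚ (y u * (x / y v)) := by
  classical
  let r : V → V → Prop := fun u v => ∃ y : ℝ, y ≠ 0 ∧ ∀ D : Derivation ℚ ℝ ℝ,
    D y = (μ D v - μ D u) * y
  have hinv : ∀ (D : Derivation ℚ ℝ ℝ) (y m : ℝ), y ≠ 0 → D y = m * y →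
      D y⁻¹ = -m * y⁻¹ := by
    intro D y m hy h
    rw [D.leibniz_inv, h]
    simp only [smul_eq_mul]
    field_simp
  have hmul : ∀ (D : Derivation ℚ ℝ ℝ) (y z m m' : ℝ), D y = m * y → D z = m' * z →
      D (y * z) = (m + m') * (y * z) := by
    intro D y z m m' h h'
    rw [D.leibniz, h, h']
    simp only [smul_eq_mul]
    ring
  have hr : Equivalence r := by
    refine ⟨fun u => ⟨1, one_ne_zero, fun D => by simp⟩, ?_, ?_⟩
    · rintro u v ⟨y, hy, h⟩
      refine ⟨y⁻¹, inv_ne_zero hy, fun D => ?_⟩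
      rw [hinv D y _ hy (h D)]; ring
    · rintro u v w ⟨y, hy, h⟩ ⟨z, hz, h'⟩
      refine ⟨y * z, mul_ne_zero hy hz, fun D => ?_⟩
      rw [hmul D y z _ _ (h D) (h' D)]; ring
  let s : Setoid V := ⟨r, hr⟩
  have hex : ∀ v : V, r (Quotient.mk s v).out v := fun v => Quotient.mk_out (s := s) v
  choose y hy0 hy using hex
  refine ⟨y, hy0, fun u v x hx => ?_⟩
  by_cases hx0 : x = 0
  · rw [hx0]; simp only [zero_div, mul_zero]; exact isAlgebraic_zero
  have huv : Quotient.mk s u = Quotient.mk s v := Quotient.sound ⟨x, hx0, hx⟩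
  by_contra hna
  obtain ⟨D, hD⟩ := exists_der _ hna
  apply hD
  have h1 := hmul D x (y v)⁻¹ _ _ (hx D) (hinv D (y v) _ (hy0 v) (hy v D))
  have h2 := hmul D (y u) (x * (y v)⁻¹) _ _ (hy u D) h1
  rw [div_eq_mul_inv, h2, huv]
  ring

/-- a derivation acting on the coordinates -/
noncomputable def dv {n : ℕ} (D : Derivation ℚ ℝ ℝ) (f : H n) : H n :=
  ((fun k => D (f.1 k)), D f.2)

theorem dv_zero {n : ℕ} (D : Derivation ℚ ℝ ℝ) : dv D (0 : H n) = 0 := by
  refine Prod.ext (funext fun k => ?_) ?_ <;> simp [dv]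

theorem dv_add {n : ℕ} (D : Derivation ℚ ℝ ℝ) (f g : H n) : dv D (f + g) = dv D f + dv D g := by
  refine Prod.ext (funext fun k => ?_) ?_ <;> simp [dv]

theorem dv_smul {n : ℕ} (D : Derivation ℚ ℝ ℝ) (c : ℝ) (f : H n) :
    dv D (c • f) = D c • f + c • dv D f := by
  refine Prod.ext (funext fun k => ?_) ?_ <;> simp [dv] <;> ring

theorem dv_sum {n : ℕ} (D : Derivation ℚ ℝ ℝ) {κ : Type} (s : Finset κ) (F : κ → H n) :
    dv D (∑ j ∈ s, F j) = ∑ j ∈ s, dv D (F j) := by
  classical
  induction s using Finset.induction_on with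
  | empty => simp [dv_zero]
  | insert a s ha ih => rw [sum_insert ha, sum_insert ha, dv_add, ih]

/-- the standard basis -/
noncomputable def std (n : ℕ) : Module.Basis (Fin (n + 2) ⊕ Unit) ℝ (H n) :=
  (Pi.basisFun ℝ (Fin (n + 2))).prod (Module.Basis.singleton Unit ℝ)

theorem isAlg_of_repr {n : ℕ} (f : H n) (h : ∀ i, IsAlgebraic ℚ ((std n).repr f i)) :
    IsAlg f := by
  refine ⟨fun k => ?_, ?_⟩
  · simpa [std] using h (Sum.inl k)
  · simpa [std] using h (Sum.inr ())

theorem projAlg {n : ℕ} {ι : Type} (J : Finset ι) (f : ι → H n)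
    (h : ∀ D : Derivation ℚ ℝ ℝ, ∃ γ : H n →ₗ[ℝ] H n, ∀ l ∈ J,
      ((fun k => D ((f l).1 k)), D (f l).2) = triv γ (f l)) :
    ∃ g : H n ≃ₗ[ℝ] H n, ∀ l ∈ J, ∃ c : ℝ, c ≠ 0 ∧ IsAlg (c • g (f l)) := by
  classical
  choose γ hγ using h
  obtain ⟨b, hb, hspan, hli⟩ := exists_linearIndependent ℝ (f '' (J : Set ι))
  have hli' : LinearIndepOn ℝ id b := hli
  let B := Module.Basis.extend hli'
  have hBv : ∀ j, B j = (j : H n) := fun j => Module.Basis.extend_apply_self hli' j
  have hfin : Finite (hli'.extend (Set.subset_univ b)) := Module.Finite.finite_basis B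
  have := Fintype.ofFinite (hli'.extend (Set.subset_univ b))
  obtain ⟨y, hy0, hy⟩ := rescale (V := H n) fun D v => (γ D v).1 0
  -- coordinates vanish outside `b`
  have hsupp : ∀ l ∈ J, ∀ j, B.repr (f l) j ≠ 0 → (j : H n) ∈ b := by
    intro l hl j hj
    have hmem : f l ∈ Submodule.span ℝ (B '' {j | (j : H n) ∈ b}) := by
      have : B '' {j | (j : H n) ∈ b} = b := by
        ext v
        constructor
        · rintro ⟨j, hj, rfl⟩; rw [hBv]; exact hj
        · intro hv
          exact ⟨⟨v, hli'.subset_extend _ hv⟩, hv, hBv _⟩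
      rw [this, hspan]
      exact Submodule.subset_span ⟨l, hl, rfl⟩
    exact (B.mem_span_image.1 hmem) (Finsupp.mem_support_iff.2 hj)
  have hder : ∀ l ∈ J, ∀ j, ∀ D : Derivation ℚ ℝ ℝ, D (B.repr (f l) j) =
      ((γ D (B j)).1 0 - (γ D (f l)).1 0) * B.repr (f l) j := by
    intro l hl j D
    have hsum : f l = ∑ j, B.repr (f l) j • B j := (B.sum_repr (f l)).symm
    have h1 : dv D (f l) = γ D (f l) - (γ D (f l)).1 0 • f l := hγ D l hl
    have h2 : ∀ j, B.repr (f l) j • dv D (B j) =
        B.repr (f l) j • (γ D (B j) - (γ D (B j)).1 0 • B j) := by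
      intro j
      by_cases h0 : B.repr (f l) j = 0
      · rw [h0, zero_smul, zero_smul]
      · obtain ⟨l', hl', he⟩ := hb (hsupp l hl j h0)
        rw [hBv, ← he]
        exact congrArg _ (hγ D l' hl')
    have h3 : dv D (f l) = ∑ j, (D (B.repr (f l) j) - B.repr (f l) j * (γ D (B j)).1 0) • B j
        + γ D (f l) := by
      conv_lhs => rw [hsum]
      conv_rhs => rw [show γ D (f l) = ∑ j, B.repr (f l) j • γ D (B j) by
        conv_lhs => rw [hsum]
        simp only [map_sum, map_smul]]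
      rw [dv_sum, ← sum_add_distrib]
      refine sum_congr rfl fun j _ => ?_
      rw [dv_smul, h2, smul_sub, sub_smul, smul_smul]
      abel
    have h4 : ∑ j, (D (B.repr (f l) j) - B.repr (f l) j * (γ D (B j)).1 0) • B j =
        (-(γ D (f l)).1 0) • f l := by
      rw [h1] at h3
      rw [neg_smul]
      linear_combination (exp := 1) -h3
    have h5 := congrArg (fun v => B.repr v j) h4
    simp only [B.repr_sum_self, map_smul, Finsupp.smul_apply, smul_eq_mul] at h5
    linarith
  let u : hli'.extend (Set.subset_univ b) → ℝˣ := fun j => Units.mk0 (y (B j)) (hy0 _)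
  let B' := B.unitsSMul u
  let e := B'.indexEquiv (std n)
  refine ⟨B'.equiv (std n) e, fun l hl => ⟨y (f l), hy0 _, isAlg_of_repr _ fun i => ?_⟩⟩
  obtain ⟨j, rfl⟩ := e.surjective i
  have h6 : (std n).repr (B'.equiv (std n) e (f l)) (e j) = B'.repr (f l) j := by
    conv_lhs => rw [← B'.sum_repr (f l)]
    simp only [map_sum, map_smul, Module.Basis.equiv_apply, Module.Basis.repr_self]
    simp [Finsupp.single_apply]
  have h7 : B'.repr (f l) j = B.repr (f l) j / y (B j) := by
    simp [B', u, Module.Basis.repr_unitsSMul, Units.smul_def, div_eq_inv_mul]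
  rw [map_smul, Finsupp.smul_apply, h6, h7, smul_eq_mul]
  exact hy (f l) (B j) _ (hder l hl j)

end ECub.G
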